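import Mathlib
import Pool.Agent.H801R3.SB.Upper

set_option autoImplicit false

open Filter Topology Matrix

namespace Pool.Agent.Results.MP_087bf0_co.GrowthOrder

open Pool.Agent.H801R3.SB

/-- The probability, over independent uniform signs, that the signed sum of the vectors
`V 0, …, V (n-1)` of Euclidean `d`-space has norm at most `r`. -/
noncomputable def prob (d n : ℕ) (r : ℝ) (V : Fin n → EuclideanSpace ℝ (Fin d)) : ℝ :=
  (Nat.card {ε : Fin n → Bool // ‖∑ i, (if ε i then (1:ℝ) else -1) • V i‖ ≤ r} : ℝ) / 2 ^ n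

/-- `F_{d,r}(n)`: the infimum of `prob` over all sequences of `n` unit vectors. -/
noncomputable def F (d : ℕ) (r : ℝ) (n : ℕ) : ℝ :=
  ⨅ V : Fin n → Metric.sphere (0 : EuclideanSpace ℝ (Fin d)) 1,
    prob d n r (fun i => (V i : EuclideanSpace ℝ (Fin d)))

/-- `f^0_{d,r}` -/
noncomputable def fEven (d : ℕ) (r : ℝ) : EReal :=
  liminf (fun n : ℕ => (((n:ℝ) ^ ((d:ℝ)/2) * F d r n : ℝ) : EReal))
    (atTop ⊓ 𝓟 {n : ℕ | n % 2 = d % 2})

/-- `f^1_{d,r}` -/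
noncomputable def fOdd (d : ℕ) (r : ℝ) : EReal :=
  liminf (fun n : ℕ => (((n:ℝ) ^ ((d:ℝ)/2) * F d r n : ℝ) : EReal))
    (atTop ⊓ 𝓟 {n : ℕ | n % 2 ≠ d % 2})

/-- `f_{d,r}` -/
noncomputable def f (d : ℕ) (r : ℝ) : EReal := min (fEven d r) (fOdd d r)

lemma norm_le_iff (d : ℕ) (x : EuclideanSpace ℝ (Fin d)) :
    ‖x‖ ≤ √(d:ℝ) ↔ (WithLp.ofLp x) ⬝ᵥ (WithLp.ofLp x) ≤ (d:ℝ) := by
  rw [EuclideanSpace.norm_eq, Real.sqrt_le_sqrt_iff (by positivity)]
  simp only [dotProduct, Real.norm_eq_abs, sq_abs, ← pow_two]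

lemma prob_eq (d n : ℕ) (V : Fin n → EuclideanSpace ℝ (Fin d)) :
    prob d n (√(d:ℝ)) V = ((good (fun i => WithLp.ofLp (V i))).card : ℝ) / 2 ^ n := by
  classical
  unfold prob
  congr 2
  rw [Nat.card_eq_fintype_card, Fintype.card_subtype]
  congr 1
  ext ε
  simp only [good, Finset.mem_filter, Finset.mem_univ, true_and]
  rw [norm_le_iff]
  simp only [WithLp.ofLp_sum, WithLp.ofLp_smul, sg]

lemma unit_dot (d : ℕ) (x : Metric.sphere (0 : EuclideanSpace ℝ (Fin d)) 1) :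
    (WithLp.ofLp (x : EuclideanSpace ℝ (Fin d))) ⬝ᵥ (WithLp.ofLp (x : EuclideanSpace ℝ (Fin d)))
      = 1 := by
  have h : ‖(x : EuclideanSpace ℝ (Fin d))‖ = 1 := by simp
  rw [EuclideanSpace.norm_eq, Real.sqrt_eq_one] at h
  simp only [Real.norm_eq_abs, sq_abs] at h
  simp only [dotProduct, ← pow_two]
  exact h

lemma rpow_half (n d : ℕ) : (n:ℝ) ^ ((d:ℝ)/2) = √(n:ℝ) ^ d := by
  rw [Real.sqrt_eq_rpow, ← Real.rpow_natCast, ← Real.rpow_mul (by positivity)]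
  congr 1
  ring

lemma low (d n : ℕ) (hd : 0 < d) (hn : d ≤ n) :
    (√(d:ℝ) / 14) ^ d ≤ (n:ℝ) ^ ((d:ℝ)/2) * F d (√(d:ℝ)) n := by
  have : NeZero d := ⟨hd.ne'⟩
  have : Nonempty (Metric.sphere (0 : EuclideanSpace ℝ (Fin d)) 1) :=
    ⟨⟨EuclideanSpace.single 0 1, by simp⟩⟩
  rw [rpow_half]
  have hn0 : (0:ℝ) < √(n:ℝ) ^ d := by
    have : (0:ℝ) < n := by exact_mod_cast lt_of_lt_of_le hd hn
    positivity
  rw [← div_le_iff₀' hn0]
  apply le_ciInf
  intro V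
  rw [prob_eq]
  have h := lower (fun i => WithLp.ofLp (V i : EuclideanSpace ℝ (Fin d)))
    (fun i => (unit_dot d (V i)).le) hd hn
  set g : ℝ := ((good (fun i => WithLp.ofLp (V i : EuclideanSpace ℝ (Fin d)))).card : ℝ)
  rw [div_le_div_iff₀ hn0 (by positivity)]
  have h2 := sqrt_pow_le d
  have h3 : √(Real.exp 1) * 8 ≤ 14 := by
    have : √(Real.exp 1) ≤ 7/4 := by
      rw [Real.sqrt_le_left (by norm_num)]
      have := Real.exp_one_lt_d9
      norm_num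
      linarith
    linarith
  have h4 : (√(d:ℝ)/14)^d * 8^d ≤ √(d.factorial : ℝ) := by
    calc (√(d:ℝ)/14)^d * 8^d = √(d:ℝ)^d * (8/14)^d := by
          rw [← mul_pow, ← mul_pow]; congr 1; ring
      _ ≤ (√(Real.exp 1)^d * √(d.factorial : ℝ)) * (8/14)^d := by gcongr
      _ = (√(Real.exp 1) * 8 / 14)^d * √(d.factorial : ℝ) := by
          rw [mul_div_assoc, mul_pow]; ring
      _ ≤ 1^d * √(d.factorial : ℝ) := by
          gcongr
          rw [div_le_one (by norm_num)]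
          exact h3
      _ = √(d.factorial : ℝ) := by rw [one_pow, one_mul]
  have h8 : (0:ℝ) < 8^d := by positivity
  have h5 : ((√(d:ℝ)/14)^d * 2^n) * 8^d ≤ (g * √(n:ℝ)^d) * 8^d := by
    calc ((√(d:ℝ)/14)^d * 2^n) * 8^d = 2^n * ((√(d:ℝ)/14)^d * 8^d) := by ring
      _ ≤ 2^n * √(d.factorial : ℝ) := by gcongr
      _ ≤ g * (8^d * √(n:ℝ)^d) := h
      _ = _ := by ring
  exact le_of_mul_le_mul_right h5 h8

lemma up (d n : ℕ) (hd : 0 < d) :
    (n:ℝ) ^ ((d:ℝ)/2) * F d (√(d:ℝ)) n ≤ (10/3 * √(d:ℝ)) ^ d := by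
  rw [rpow_half]
  let V : Fin n → Metric.sphere (0 : EuclideanSpace ℝ (Fin d)) 1 := fun i =>
    ⟨EuclideanSpace.single (⟨i.val % d, Nat.mod_lt _ hd⟩ : Fin d) (1:ℝ), by simp⟩
  have h1 : F d (√(d:ℝ)) n ≤ prob d n (√(d:ℝ)) (fun i => (V i : EuclideanSpace ℝ (Fin d))) := by
    apply ciInf_le
    refine ⟨0, ?_⟩
    rintro _ ⟨W, rfl⟩
    simp only [prob]
    positivity
  rw [prob_eq] at h1
  have e : (fun i => WithLp.ofLp (V i : EuclideanSpace ℝ (Fin d))) = cyc n hd := by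
    ext i j
    simp [V, cyc, Pi.single_apply]
  rw [e] at h1
  have h2 := upper (n := n) hd
  calc √(n:ℝ) ^ d * F d (√(d:ℝ)) n ≤ √(n:ℝ)^d * (((good (cyc n hd)).card : ℝ) / 2^n) := by gcongr
    _ = (((good (cyc n hd)).card : ℝ) * √(n:ℝ)^d) / 2^n := by ring
    _ ≤ (2^n * (10/3 * √(d:ℝ))^d) / 2^n := by gcongr
    _ = _ := by field_simp

/-- For all `d ≥ 2`, `(√d / 14)^d ≤ f_{d,√d} ≤ (10 √d / 3)^d`; more precisely, the same bounds hold
for `n^{d/2} F_{d,√d}(n)` for every `n ≥ d`. -/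
theorem result : ∀ d : ℕ, 2 ≤ d →
    ((((√(d:ℝ) / 14) ^ d : ℝ) : EReal) ≤ f d (√(d:ℝ)) ∧
      f d (√(d:ℝ)) ≤ (((10/3 * √(d:ℝ)) ^ d : ℝ) : EReal)) ∧
    ∀ n : ℕ, d ≤ n →
      (√(d:ℝ) / 14) ^ d ≤ (n:ℝ) ^ ((d:ℝ)/2) * F d (√(d:ℝ)) n ∧
      (n:ℝ) ^ ((d:ℝ)/2) * F d (√(d:ℝ)) n ≤ (10/3 * √(d:ℝ)) ^ d := by
  intro d hd
  have hd0 : 0 < d := by omega
  refine ⟨⟨?_, ?_⟩, fun n hn => ⟨low d n hd0 hn, up d n hd0⟩⟩
  · refine le_min ?_ ?_
    · apply Filter.le_liminf_of_le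
      · isBoundedDefault
      · apply Filter.Eventually.filter_mono inf_le_left
        filter_upwards [eventually_ge_atTop d] with n hn
        exact_mod_cast low d n hd0 hn
    · apply Filter.le_liminf_of_le
      · isBoundedDefault
      · apply Filter.Eventually.filter_mono inf_le_left
        filter_upwards [eventually_ge_atTop d] with n hn
        exact_mod_cast low d n hd0 hn
  · refine (min_le_left _ _).trans ?_
    apply Filter.liminf_le_of_frequently_le'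
    rw [Filter.frequently_inf_principal, Filter.frequently_atTop]
    intro N
    refine ⟨d + 2 * N, by omega, by simp, ?_⟩
    exact_mod_cast up d (d + 2 * N) hd0

end Pool.Agent.Results.MP_087bf0_co.GrowthOrder
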